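import Mathlib
import Pool.Agent.Y863.AA.Defs

/-!
# The monoid of the maps `x ↦ a + d x`
-/

set_option autoImplicit false

namespace Pool.Agent.Y863.AU

open Finset Pool.Agent.W25.IT Pool.Agent.Y863.AA

/-- the map `x ↦ a + d x` -/
@[ext] structure Af where
  /-- the constant coefficient -/
  a : ℤ
  /-- the slope -/
  d : ℤ

namespace Af

instance : Mul Af := ⟨fun f g => ⟨f.a + f.d * g.a, f.d * g.d⟩⟩

instance : One Af := ⟨⟨0, 1⟩⟩

theorem mul_a (f g : Af) : (f * g).a = f.a + f.d * g.a := rfl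

theorem mul_d (f g : Af) : (f * g).d = f.d * g.d := rfl

theorem one_a : (1 : Af).a = 0 := rfl

theorem one_d : (1 : Af).d = 1 := rfl

instance : Monoid Af where
  mul_assoc f g h := by
    ext
    · simp only [mul_a, mul_d]; ring
    · simp only [mul_d]; ring
  one_mul f := by
    ext
    · rw [mul_a, one_a, one_d]; ring
    · rw [mul_d, one_d]; ring
  mul_one f := by
    ext
    · rw [mul_a, one_a]; ring
    · rw [mul_d, one_d]; ring

theorem pow_d (f : Af) (j : ℕ) : (f ^ j).d = f.d ^ j := by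
  induction j with
  | zero => rw [_root_.pow_zero, _root_.pow_zero]; rfl
  | succ j ih => rw [_root_.pow_succ', mul_d, ih, _root_.pow_succ']

theorem pow_a (f : Af) (j : ℕ) : (f ^ j).a = itc f.a f.d j := by
  induction j with
  | zero => rw [_root_.pow_zero, itc_zero]; rfl
  | succ j ih => rw [_root_.pow_succ', mul_a, ih, itc_succ]

/-- the value of the map -/
def ev (f : Af) (x : ℤ) : ℤ := f.a + f.d * x

theorem ev_mul (f g : Af) (x : ℤ) : (f * g).ev x = f.ev (g.ev x) := by
  unfold ev; rw [mul_a, mul_d]; ring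

/-- `1 + m + ... + m ^ (j - 1)` -/
def sg (m j : ℕ) : ℕ := ∑ i ∈ range j, m ^ i

theorem sg_succ (m j : ℕ) : sg m (j + 1) = 1 + m * sg m j := by
  unfold sg
  rw [Finset.sum_range_succ', Finset.mul_sum, _root_.pow_zero, Nat.add_comm]
  congr 1
  refine Finset.sum_congr rfl fun i _ => ?_
  ring

theorem sc {f g : Af} {m : ℕ} (h : f * g = g ^ m * f) (k : ℕ) : f * g ^ k = g ^ (m * k) * f := by
  induction k with
  | zero => rw [Nat.mul_zero, _root_.pow_zero, _root_.mul_one, _root_.one_mul]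
  | succ k ih =>
    rw [_root_.pow_succ, ← _root_.mul_assoc, ih, _root_.mul_assoc, h, ← _root_.mul_assoc,
      ← _root_.pow_add, Nat.mul_succ]

theorem sce {f g : Af} {m : ℕ} (h : f * g = g ^ m * f) (e k : ℕ) :
    f ^ e * g ^ k = g ^ (m ^ e * k) * f ^ e := by
  induction e with
  | zero => rw [_root_.pow_zero, _root_.pow_zero, Nat.one_mul, _root_.one_mul, _root_.mul_one]
  | succ e ih =>
    rw [_root_.pow_succ', _root_.mul_assoc, ih, ← _root_.mul_assoc, sc h, _root_.mul_assoc,
      _root_.pow_succ', Nat.mul_assoc]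

theorem hpow {f g : Af} {m : ℕ} (h : f * g = g ^ m * f) (k j : ℕ) :
    (g ^ k * f) ^ j = g ^ (k * sg m j) * f ^ j := by
  induction j with
  | zero =>
    have : sg m 0 = 0 := by unfold sg; rw [Finset.range_zero, Finset.sum_empty]
    rw [this, Nat.mul_zero, _root_.pow_zero, _root_.pow_zero, _root_.pow_zero, _root_.mul_one]
  | succ j ih =>
    have e : k + m * (k * sg m j) = k * (1 + m * sg m j) := by ring
    calc (g ^ k * f) ^ (j + 1) = g ^ k * f * (g ^ (k * sg m j) * f ^ j) := by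
          rw [_root_.pow_succ', ih]
      _ = g ^ k * (f * g ^ (k * sg m j)) * f ^ j := by simp only [_root_.mul_assoc]
      _ = g ^ k * (g ^ (m * (k * sg m j)) * f) * f ^ j := by rw [sc h]
      _ = (g ^ k * g ^ (m * (k * sg m j))) * (f * f ^ j) := by simp only [_root_.mul_assoc]
      _ = g ^ (k * sg m (j + 1)) * f ^ (j + 1) := by
          rw [← _root_.pow_add, ← _root_.pow_succ', sg_succ, e]

theorem cross {f g : Af} {m : ℕ} (h : f * g = g ^ m * f) (k j s e : ℕ) :
    (g ^ k * f) ^ j * (g ^ s * f ^ e) = g ^ (k * sg m j + m ^ j * s) * f ^ (j + e) := by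
  rw [hpow h, _root_.mul_assoc, ← _root_.mul_assoc (f ^ j), sce h, _root_.pow_add,
    _root_.pow_add, _root_.mul_assoc, _root_.mul_assoc]

/-- the hypotheses of the question -/
def Adm (f : Af) : Prop := Ad f.a f.d

theorem Adm_one : Adm 1 := by
  unfold Adm Ad
  rw [one_a, one_d]
  exact ⟨by norm_num, by norm_num⟩

theorem adm_mul {f g : Af} (hf : Adm f) (hg : Adm g) (h : f * g = g * f) : Adm (f * g) := by
  have h1 : f.a + f.d * g.a = g.a + g.d * f.a := by
    have := congrArg Af.a h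
    rwa [mul_a, mul_a] at this
  refine ⟨?_, ?_⟩
  · rw [mul_a, mul_d]
    by_contra hne
    obtain ⟨p, hp, hpd⟩ := Nat.exists_prime_and_dvd hne
    have hpp := Nat.prime_iff_prime_int.1 hp
    have h2 : (p : ℤ) ∣ (Int.gcd (f.a + f.d * g.a) (f.d * g.d) : ℤ) :=
      Int.natCast_dvd_natCast.2 hpd
    have h3 := h2.trans (Int.gcd_dvd_left _ _)
    have h4 := h2.trans (Int.gcd_dvd_right _ _)
    rcases hpp.dvd_or_dvd h4 with h5 | h5
    · have h6 := (dvd_add_left (Dvd.dvd.mul_right h5 g.a)).1 h3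
      exact hpp.not_isUnit ((Int.isCoprime_iff_gcd_eq_one.2 hf.1).isUnit_of_dvd' h6 h5)
    · rw [h1] at h3
      have h6 := (dvd_add_left (Dvd.dvd.mul_right h5 f.a)).1 h3
      exact hpp.not_isUnit ((Int.isCoprime_iff_gcd_eq_one.2 hg.1).isUnit_of_dvd' h6 h5)
  · rw [mul_a, mul_d]
    rcases Int.prime_two.dvd_or_dvd hf.2 with h2 | h2
    · rcases Int.prime_two.dvd_or_dvd hg.2 with h3 | h3
      · exact Dvd.dvd.mul_right (dvd_add h2 (Dvd.dvd.mul_left h3 _)) _
      · exact Dvd.dvd.mul_left (Dvd.dvd.mul_left h3 _) _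
    · exact Dvd.dvd.mul_left (Dvd.dvd.mul_right h2 _) _

theorem adm_pow_mul {f g : Af} (hf : Adm f) (hg : Adm g) (h : f * g = g * f) (k : ℕ) :
    Adm (g ^ k * f) := by
  induction k with
  | zero => rw [_root_.pow_zero, _root_.one_mul]; exact hf
  | succ k ih =>
    rw [_root_.pow_succ', _root_.mul_assoc]
    refine adm_mul hg ih ?_
    rw [_root_.mul_assoc, h, ← _root_.mul_assoc, ← _root_.mul_assoc, ← _root_.pow_succ',
      ← _root_.pow_succ]

end Af

end Pool.Agent.Y863.AU
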