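import Mathlib
import Pool.Agent.Y863.AU.Aff

/-!
# Local conditions for arrays of the maps `g ^ s * f ^ e`
-/

set_option autoImplicit false

namespace Pool.Agent.Y863.AU

open Finset Pool.Agent.W25.IT Pool.Agent.Y863.AA

namespace Af

theorem a_ne {g : Af} (hg : Adm g) (hg1 : g ≠ 1) (hd : 1 ≤ g.d) : g.a ≠ 0 := by
  intro h
  apply hg1
  have h1 := hg.1
  rw [h, Int.gcd_zero_left] at h1
  ext
  · rw [h, one_a]
  · rw [one_d]; omega

theorem itc_one (a : ℤ) (j : ℕ) : itc a 1 j = j * a := by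
  unfold itc
  simp only [one_pow, sum_const, card_range, nsmul_eq_mul, mul_one]
  ring

/-- `g` is a translation and `m` is the slope of `f`, or `f` and `g` commute and `m = 1` -/
theorem dich {f g : Af} {m : ℕ} (hf : 1 ≤ f.d) (hg : 1 ≤ g.d) (hgA : Adm g) (hg1 : g ≠ 1)
    (h : f * g = g ^ m * f) : (g.d = 1 ∧ f.d = m) ∨ f * g = g * f := by
  have h1 := congrArg Af.d h
  have h2 := congrArg Af.a h
  rw [mul_d, mul_d, pow_d, mul_comm] at h1
  have h3 := mul_right_cancel₀ (by omega : f.d ≠ 0) h1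
  rw [mul_a, mul_a, pow_a, pow_d] at h2
  rcases hg.eq_or_lt with h4 | h4
  · left
    refine ⟨h4.symm, ?_⟩
    rw [← h4, itc_one, one_pow, one_mul] at h2
    have h5 : f.d * g.a = m * g.a := by linarith
    exact mul_right_cancel₀ (a_ne hgA hg1 hg) h5
  · right
    have h5 : Function.Injective (fun n : ℕ => g.d ^ n) :=
      pow_right_injective₀ (by omega) (by omega)
    have h6 : g.d ^ 1 = g.d ^ m := by rw [_root_.pow_one]; exact h3
    have h7 : (1 : ℕ) = m := h5 h6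
    rw [h, ← h7, _root_.pow_one]

theorem per {f g : Af} {m : ℕ} (hf : 1 ≤ f.d) (hg : 1 ≤ g.d) (hfA : Adm f) (hgA : Adm g)
    (hg1 : g ≠ 1) (h : f * g = g ^ m * f) {q : ℕ} (hmq : m ∣ q) (h2q : 2 ∣ q) (k l : ℤ)
    (hk : 0 < k) (hl : 0 < l) (hkl : (q : ℤ) ∣ k - l) (hA : Adm (g ^ l.toNat * f)) :
    Adm (g ^ k.toNat * f) := by
  rcases dich hf hg hgA hg1 h with ⟨h1, h2⟩ | h1
  · have hd : ∀ n : ℕ, (g ^ n * f).d = f.d := by
      intro n; rw [mul_d, pow_d, h1, one_pow, one_mul]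
    have ha : ∀ n : ℕ, (g ^ n * f).a = n * g.a + f.a := by
      intro n; rw [mul_a, pow_a, pow_d, h1, itc_one, one_pow, one_mul]
    unfold Adm at hA ⊢
    rw [hd, ha] at hA ⊢
    refine Ad_congr (q := q) (by rw [h2]; exact_mod_cast hmq) (by exact_mod_cast h2q) ?_ hA
    have h3 : ((k.toNat : ℕ) : ℤ) = k := Int.toNat_of_nonneg hk.le
    have h4 : ((l.toNat : ℕ) : ℤ) = l := Int.toNat_of_nonneg hl.le
    rw [h3, h4]
    have h5 : k * g.a + f.a - (l * g.a + f.a) = (k - l) * g.a := by ring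
    rw [h5]
    exact Dvd.dvd.mul_right hkl _
  · exact adm_pow_mul hfA hgA h1 _

theorem fix_mul {p : ℤ} {f g : Af} {c : ℤ} (hf : p ∣ f.ev c - c) (hg : p ∣ g.ev c - c) :
    p ∣ (f * g).ev c - c := by
  rw [ev_mul]
  have h1 : f.ev (g.ev c) - c = f.d * (g.ev c - c) + (f.ev c - c) := by unfold ev; ring
  rw [h1]
  exact dvd_add (Dvd.dvd.mul_left hg _) hf

theorem fix_pow {p : ℤ} {f : Af} {c : ℤ} (hf : p ∣ f.ev c - c) (e : ℕ) :
    p ∣ (f ^ e).ev c - c := by
  induction e with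
  | zero =>
    rw [_root_.pow_zero]
    unfold ev
    rw [one_a, one_d]
    simp
  | succ e ih =>
    rw [_root_.pow_succ]
    exact fix_mul ih hf

theorem tr_pow {p : ℤ} {g : Af} (hg : p ∣ g.d - 1) {s : ℕ} (hs : p ∣ s) (y : ℤ) :
    p ∣ (g ^ s).ev y - y := by
  unfold ev
  rw [pow_a, pow_d]
  have h1 := itc_mod_d_sub_one (a := g.a) hg s
  have h2 := pow_sub_one_dvd hg s
  have h3 : itc g.a g.d s + g.d ^ s * y - y =
      (itc g.a g.d s - s * g.a) + s * g.a + (g.d ^ s - 1) * y := by ring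
  rw [h3]
  exact dvd_add (dvd_add h1 (Dvd.dvd.mul_right hs _)) (Dvd.dvd.mul_right h2 _)

/-- a common fixed point modulo `p` -/
theorem of_fixed {p : ℕ} (hp : p.Prime) {f g : Af} (hfA : Adm f) (hgA : Adm g) (c : ℤ)
    (hf : (p : ℤ) ∣ f.ev c - c) (hg : (p : ℤ) ∣ g.ev c - c) :
    ∃ n : ℤ, ∀ s e : ℕ, ¬ (p : ℤ) ∣ (g ^ s * f ^ e).ev n := by
  have hpp := Nat.prime_iff_prime_int.1 hp
  by_cases hc : (p : ℤ) ∣ c
  · have key : ∀ f : Af, Adm f → (p : ℤ) ∣ f.ev c - c → (p : ℤ) ∣ f.a ∧ ¬ (p : ℤ) ∣ f.d := by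
      intro f hfA hf
      have h1 : (p : ℤ) ∣ f.a := by
        unfold ev at hf
        have h2 : f.a = (f.a + f.d * c - c) - (f.d - 1) * c := by ring
        rw [h2]
        exact dvd_sub hf (Dvd.dvd.mul_left hc _)
      exact ⟨h1, fun h2 => hpp.not_isUnit
        ((Int.isCoprime_iff_gcd_eq_one.2 hfA.1).isUnit_of_dvd' h1 h2)⟩
    obtain ⟨hf1, hf2⟩ := key f hfA hf
    obtain ⟨hg1, hg2⟩ := key g hgA hg
    refine ⟨1, fun s e h => ?_⟩
    have h0 : ∀ f : Af, (p : ℤ) ∣ f.a → (p : ℤ) ∣ f.ev 0 - 0 := by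
      intro f hf
      unfold ev
      simpa using hf
    have h1 := fix_mul (fix_pow (h0 g hg1) s) (fix_pow (h0 f hf1) e)
    have h2 : (p : ℤ) ∣ (g ^ s * f ^ e).a := by
      unfold ev at h1
      simpa using h1
    unfold ev at h
    have h3 := (dvd_add_right h2).1 h
    rw [mul_one, mul_d, pow_d, pow_d] at h3
    rcases hpp.dvd_or_dvd h3 with h4 | h4
    · exact hg2 (hpp.dvd_of_dvd_pow h4)
    · exact hf2 (hpp.dvd_of_dvd_pow h4)
  · refine ⟨c, fun s e h => hc ?_⟩
    have h1 := fix_mul (fix_pow hg s) (fix_pow hf e)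
    have h2 := dvd_sub h h1
    rwa [sub_sub_cancel] at h2

theorem arr {ι : Type*} [Fintype ι] {f g : Af} {m : ℕ} (hf : 1 ≤ f.d) (hg : 1 ≤ g.d)
    (hfA : Adm f) (hgA : Adm g) (hg1 : g ≠ 1) (h : f * g = g ^ m * f) {q : ℕ} (hmq : m ∣ q)
    (hfac : ∀ p : ℕ, p.Prime → p ≤ Fintype.card ι → p ∣ q) (e : ι → ℕ) (x : ℕ) (τ : ι → ℕ)
    (hx : ∀ p : ℕ, p.Prime → ∃ n : ℤ, ∀ i, ¬ (p : ℤ) ∣ ((g ^ x * f) ^ e i).ev n)
    {p : ℕ} (hp : p.Prime) :
    ∃ n : ℤ, ∀ i, ¬ (p : ℤ) ∣ (g ^ (x * sg m (e i) + q * τ i) * f ^ e i).ev n := by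
  have hpp := Nat.prime_iff_prime_int.1 hp
  by_cases hp1 : (p : ℤ) ∣ g.d - 1
  · by_cases hpq : p ∣ q
    · obtain ⟨n, hn⟩ := hx p hp
      refine ⟨n, fun i hi => hn i ?_⟩
      rw [hpow h]
      have h1 : g ^ (x * sg m (e i) + q * τ i) * f ^ e i =
          g ^ (q * τ i) * (g ^ (x * sg m (e i)) * f ^ e i) := by
        rw [← _root_.mul_assoc, ← _root_.pow_add, Nat.add_comm]
      rw [h1, ev_mul] at hi
      have h2 := tr_pow hp1 (s := q * τ i) (by
        exact_mod_cast Dvd.dvd.mul_right hpq _) ((g ^ (x * sg m (e i)) * f ^ e i).ev n)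
      have h3 := dvd_sub hi h2
      rwa [sub_sub_cancel] at h3
    · have hpc : Fintype.card ι < p := by
        by_contra hle
        exact hpq (hfac p hp (not_lt.1 hle))
      have hpg : ¬ (p : ℤ) ∣ g.d := by
        intro h1
        have h2 := dvd_sub h1 hp1
        rw [sub_sub_cancel] at h2
        exact hpp.not_isUnit (isUnit_of_dvd_one h2)
      by_cases hpf : (p : ℤ) ∣ f.d
      · rcases dich hf hg hgA hg1 h with ⟨h1, h2⟩ | h1
        · exfalso
          apply hpq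
          rw [h2] at hpf
          have h3 : p ∣ m := by exact_mod_cast hpf
          exact h3.trans hmq
        · obtain ⟨n, hn⟩ := of_fixed hp hfA hgA f.a (by
            unfold ev
            have h2 : f.a + f.d * f.a - f.a = f.d * f.a := by ring
            rw [h2]
            exact Dvd.dvd.mul_right hpf _) (by
            have h2 := congrArg Af.a h1
            rw [mul_a, mul_a] at h2
            unfold ev
            rw [← h2]
            have h3 : f.a + f.d * g.a - f.a = f.d * g.a := by ring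
            rw [h3]
            exact Dvd.dvd.mul_right hpf _)
          exact ⟨n, fun i => hn _ _⟩
      · obtain ⟨n, hn⟩ := avoid (fun i => (g ^ (x * sg m (e i) + q * τ i) * f ^ e i).d)
          (fun i => (g ^ (x * sg m (e i) + q * τ i) * f ^ e i).a) hp (by
            intro i hi
            rw [mul_d, pow_d, pow_d] at hi
            rcases hpp.dvd_or_dvd hi with h4 | h4
            · exact hpg (hpp.dvd_of_dvd_pow h4)
            · exact hpf (hpp.dvd_of_dvd_pow h4)) hpc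
        refine ⟨n, fun i hi => hn i ?_⟩
        unfold ev at hi
        rw [add_comm] at hi
        exact hi
  · have hcomm : f * g = g * f := by
      rcases dich hf hg hgA hg1 h with ⟨h1, h2⟩ | h1
      · exfalso
        apply hp1
        rw [h1, sub_self]
        exact dvd_zero _
      · exact h1
    have hc : IsCoprime (g.d - 1) (p : ℤ) :=
      ((Irreducible.coprime_iff_not_dvd hpp.irreducible).2 hp1).symm
    obtain ⟨u, v, huv⟩ := hc
    have hgc : (p : ℤ) ∣ g.ev (-(u * g.a)) - -(u * g.a) := by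
      unfold ev
      exact ⟨v * g.a, by linear_combination -g.a * huv⟩
    have hfc : (p : ℤ) ∣ f.ev (-(u * g.a)) - -(u * g.a) := by
      generalize -(u * g.a) = c at hgc ⊢
      have h1 : g.ev (f.ev c) = f.ev (g.ev c) := by rw [← ev_mul, ← ev_mul, hcomm]
      have h2 : (g.d - 1) * (f.ev c - c) = f.d * (g.ev c - c) - (g.ev c - c) := by
        have h3 : g.ev (f.ev c) = g.a + g.d * f.ev c := rfl
        have h4 : f.ev (g.ev c) = f.a + f.d * g.ev c := rfl
        rw [h3, h4] at h1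
        unfold ev at h1 ⊢
        linear_combination h1
      have h3 : (p : ℤ) ∣ (g.d - 1) * (f.ev c - c) := by
        rw [h2]
        exact dvd_sub (Dvd.dvd.mul_left hgc _) hgc
      rcases hpp.dvd_or_dvd h3 with h4 | h4
      · exact absurd h4 hp1
      · exact h4
    obtain ⟨n, hn⟩ := of_fixed hp hfA hgA _ hfc hgc
    exact ⟨n, fun i => hn _ _⟩

end Af

end Pool.Agent.Y863.AU
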