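import Mathlib
import Pool.Agent.Y863.AA.Core
import Pool.Agent.Y863.AU.Arr

/-!
# Almost all members of the sequence of maps `g ^ k * f`, `f * g = g ^ m * f`, at one scale

The coloured Maynard-Tao theorem with a constant below `4` in short windows
(`Pool.Agent.TH899.UG.NW.exactW`) is from the starting files.
-/

set_option autoImplicit false

namespace Pool.Agent.Y863.AU

open Finset Filter Pool.Agent.W25.IT Pool.Agent.Y863.AA Nat

theorem cnt_geZ (F : Finset ℕ) (a d : ℤ) (j : ℕ) (D β : ℤ) (hD : 0 < D) (y x : ℝ)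
    (h : ∀ n ∈ F, (D * n + β).toNat.Prime ∧ (d ^ j * (D * n + β) + itc a d j).toNat.Prime ∧
      y ≤ ((D * n + β : ℤ) : ℝ) ∧ ((D * n + β : ℤ) : ℝ) ≤ x) : F.card ≤ cnt a d j y x := by
  classical
  have hpos : ∀ n ∈ F, (((D * n + β).toNat : ℕ) : ℤ) = D * n + β := by
    intro n hn
    apply Int.toNat_of_nonneg
    by_contra hneg
    push Not at hneg
    have h1 := (h n hn).1
    rw [Int.toNat_of_nonpos hneg.le] at h1
    exact Nat.not_prime_zero h1
  have hc : (F.image (fun n : ℕ => (D * n + β).toNat)).card = F.card := by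
    apply Finset.card_image_of_injOn
    intro n hn n' hn' he
    have h1 : (D * n + β).toNat = (D * n' + β).toNat := he
    have h2 : D * n + β = D * n' + β := by
      rw [← hpos n hn, ← hpos n' hn', h1]
    have h3 : D * (n : ℤ) = D * n' := by linarith
    exact_mod_cast mul_left_cancel₀ hD.ne' h3
  rw [← hc, ← Set.ncard_coe_finset]
  refine Set.ncard_le_ncard ?_ (PS_finite _ _ _ _ _)
  intro q hq
  rw [coe_image] at hq
  obtain ⟨n, hn, rfl⟩ := hq
  have hn := mem_coe.1 hn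
  obtain ⟨h1, h2, h3, h4⟩ := h n hn
  have h5 := hpos n hn
  have h6 : (((D * n + β).toNat : ℕ) : ℝ) = ((D * n + β : ℤ) : ℝ) := by
    rw [← h5]; push_cast; rfl
  refine ⟨⟨h1, (d ^ j * (D * n + β) + itc a d j).toNat, h2, ?_⟩, ?_, ?_⟩
  · show itc a d j + (((D * n + β).toNat : ℕ) : ℤ) * d ^ j = _
    rw [h5]
    have h7 : 0 ≤ d ^ j * (D * n + β) + itc a d j := by
      by_contra hneg
      push Not at hneg
      rw [Int.toNat_of_nonpos hneg.le] at h2
      exact Nat.not_prime_zero h2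
    rw [Int.toNat_of_nonneg h7]; ring
  · show y ≤ (((D * n + β).toNat : ℕ) : ℝ)
    rw [h6]; exact h3
  · show (((D * n + β).toNat : ℕ) : ℝ) ≤ x
    rw [h6]; exact h4

/-- the scale -/
theorem scaleU (A : ℕ) (hA : 1 ≤ A) (η : ℝ) (hη : 0 < η) (hη1 : η ≤ 1) :
    ∀ᶠ X : ℕ in atTop, (X : ℝ) / (2 * A) ≤ (X / A : ℕ) ∧
      (X : ℝ) ^ (1 - η) ≤ ((X / A : ℕ) : ℝ) ^ (1 - η / 2) := by
  have h := scale A 1 hA η hη hη1
  simpa only [pow_one] using h

theorem sg_add (m i j : ℕ) : Af.sg m (i + j) = Af.sg m i + m ^ i * Af.sg m j := by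
  unfold Af.sg
  rw [Finset.sum_range_add, Finset.mul_sum]
  simp only [pow_add]

theorem sg_gs (m j : ℕ) : ((Af.sg m j : ℕ) : ℤ) = gs m j := by
  rw [gs_nat]; rfl

theorem sg_mono (m : ℕ) {i j : ℕ} (h : i ≤ j) : Af.sg m i ≤ Af.sg m j := by
  have := gs_mono (d := m) h
  rw [← sg_gs, ← sg_gs] at this
  exact_mod_cast this

open Classical in
/-- **The core theorem.** -/
theorem coreU : ∃ c : ℝ, 0 < c ∧ c < 1 ∧ ∀ T M : ℕ, (4 - c) * M < T → ∀ (w : ℕ) (e : Fin T → ℕ),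
    StrictMono e → (∀ γ, e γ ≤ w) → ∀ ε : ℝ, 0 < ε → ∃ L : ℕ, ∀ m d d' : ℕ, 1 ≤ m → 1 ≤ d →
    1 ≤ d' → ∀ u H : ℕ, L * m ^ ((w + 1) ^ 2) ≤ H → ∃ C : ℕ, 1 ≤ C ∧
    ∀ η : ℝ, 0 < η → η ≤ 1 → ∀ᶠ X : ℕ in atTop, ∀ f g : Af, f.d = d → g.d = d' → f.Adm → g.Adm →
      g ≠ 1 → f * g = g ^ m * f → (C : ℤ) * |f.a| ≤ X → (C : ℤ) * |g.a| ≤ X →
      (((Ioc (u : ℤ) (u + H)).filter (fun k : ℤ => (g ^ k.toNat * f).Adm ∧ g ^ k.toNat * f ≠ 1 ∧
        AdE e (g ^ k.toNat * f).a (g ^ k.toNat * f).d ∧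
        NoClq M e (g ^ k.toNat * f).a (g ^ k.toNat * f).d ((X : ℝ) ^ (1 - η)) (X / C) X)).card : ℝ) ≤
      ε * (((Ioc (u : ℤ) (u + H)).filter (fun k : ℤ => (g ^ k.toNat * f).Adm)).card : ℝ) := by
  obtain ⟨c, hc, hc1, hex⟩ := Pool.Agent.TH899.UG.NW.exactW
  refine ⟨c, hc, hc1, ?_⟩
  intro T M hTM w e he hew ε hε
  have hT : 1 ≤ T := by
    have h1 : (0 : ℝ) ≤ (4 - c) * M := mul_nonneg (by linarith) (Nat.cast_nonneg _)
    have h2 : (0 : ℝ) < T := lt_of_le_of_lt h1 hTM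
    exact_mod_cast h2
  obtain ⟨K, hK, hex⟩ := hex (1 / 8) (1 / 4) le_rfl (by norm_num) le_rfl T M hT hTM
  have : Nonempty (Fin T) := ⟨⟨0, hT⟩⟩
  have : Nonempty (Fin K) := ⟨⟨0, hK⟩⟩
  obtain ⟨n, hn, hcopy⟩ := copy ((Fin T × Fin K) × (Fin T × Fin K)) (Finset (Fin T × Fin T)) ε hε
  refine ⟨(n * w ^ w * K + 1) * (T * K + 2)!, fun m d d' hm hd hd' u H hH => ?_⟩
  obtain ⟨E, hE⟩ : ∃ E : ℕ, E = (u + H) * Af.sg m w + H := ⟨_, rfl⟩
  obtain ⟨B0, hB0⟩ : ∃ B0 : ℕ, B0 = (∑ i ∈ range E, d' ^ i) + d' ^ E * ∑ i ∈ range w, d ^ i :=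
    ⟨_, rfl⟩
  obtain ⟨A0, hA0⟩ : ∃ A0 : ℕ, A0 = d' ^ E * d ^ w := ⟨_, rfl⟩
  have hA01 : 1 ≤ A0 := by
    rw [hA0]; exact Nat.mul_pos (Nat.one_le_pow _ _ hd') (Nat.one_le_pow _ _ hd)
  refine ⟨200 * (B0 + 1) * A0, Nat.succ_le_of_lt (by positivity), fun η hη hη1 => ?_⟩
  have hdivt : Tendsto (fun X : ℕ => X / A0) atTop atTop := by
    refine tendsto_atTop.2 fun b => ?_
    filter_upwards [eventually_ge_atTop (b * A0)] with X hX
    exact (Nat.le_div_iff_mul_le (by omega)).2 hX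
  filter_upwards [hdivt.eventually (hex A0 (η / 2) (by positivity)), scaleU A0 hA01 η hη hη1,
    eventually_ge_atTop 1, hdivt.eventually (eventually_ge_atTop 1)]
    with X hN hsc hX1 hN1 f g hfd hgd hfA hgA hg1 hfg hCf hCg
  obtain ⟨N, hNdef⟩ : ∃ N : ℕ, N = X / A0 := ⟨_, rfl⟩
  rw [← hNdef] at hN hsc hN1
  by_contra hcon
  push Not at hcon
  have hfd1 : 1 ≤ f.d := by rw [hfd]; exact_mod_cast hd
  have hgd1 : 1 ≤ g.d := by rw [hgd]; exact_mod_cast hd'
  obtain ⟨q, hq⟩ : ∃ q : ℕ, q = m * (T * K + 2)! := ⟨_, rfl⟩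
  have hfac : 1 ≤ (T * K + 2)! := Nat.succ_le_of_lt (Nat.factorial_pos _)
  have hq1 : 1 ≤ q := by rw [hq]; exact Nat.mul_pos hm hfac
  have hmq : m ∣ q := by rw [hq]; exact Dvd.intro _ rfl
  have h2q : 2 ∣ q := by
    rw [hq]; exact Dvd.dvd.mul_left (Nat.dvd_factorial (by norm_num) (by omega)) _
  obtain ⟨P, hP⟩ : ∃ P : ℕ, P = pr m w := ⟨_, rfl⟩
  have hP1 : 0 < P := by rw [hP]; exact pr_pos hm w
  -- the size conditions
  have hsize1 : q * (n * (P * K * m ^ w)) ≤ H := by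
    refine le_trans ?_ hH
    have h1 : P ≤ w ^ w * m ^ (w * w) := by rw [hP]; exact pr_le hm w
    calc q * (n * (P * K * m ^ w)) ≤
          m * (T * K + 2)! * (n * (w ^ w * m ^ (w * w) * K * m ^ w)) := by
            rw [hq]
            exact Nat.mul_le_mul_left _ (Nat.mul_le_mul_left _ (Nat.mul_le_mul_right _
              (Nat.mul_le_mul_right _ h1)))
      _ = (n * w ^ w * K) * (T * K + 2)! * m ^ (w * w + w + 1) := by
            rw [pow_add, pow_add, pow_one]; ring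
      _ ≤ (n * w ^ w * K + 1) * (T * K + 2)! * m ^ ((w + 1) ^ 2) := by
            refine Nat.mul_le_mul (Nat.mul_le_mul_right _ (Nat.le_succ _))
              (Nat.pow_le_pow_right hm ?_)
            nlinarith
  have hsize2 : q ≤ H := by
    refine le_trans ?_ hH
    calc q = 1 * (T * K + 2)! * m ^ 1 := by rw [hq]; ring
      _ ≤ (n * w ^ w * K + 1) * (T * K + 2)! * m ^ ((w + 1) ^ 2) := by
            refine Nat.mul_le_mul (Nat.mul_le_mul_right _ (by omega))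
              (Nat.pow_le_pow_right hm ?_)
            exact Nat.one_le_pow _ _ (Nat.succ_pos _)
  -- the shape
  obtain ⟨v, hv⟩ : ∃ v : (Fin T × Fin K) × (Fin T × Fin K) → ℤ, v = fun z =>
    if z.1.1 < z.2.1 then (P : ℤ) / gs m (e z.2.1 - e z.1.1) *
      (((z.2.2 : ℕ) : ℤ) - (m : ℤ) ^ (e z.2.1 - e z.1.1) * ((z.1.2 : ℕ) : ℤ)) else 0 := ⟨_, rfl⟩
  have hej : ∀ γ δ : Fin T, γ < δ → 1 ≤ e δ - e γ ∧ e δ - e γ ≤ w := by
    intro γ δ hγδ
    have h1 := he hγδ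
    have h2 := hew δ
    constructor <;> omega
  have hvb : ∀ z, |v z| ≤ ((P * K * m ^ w : ℕ) : ℤ) := by
    intro z
    rw [hv]
    simp only
    split_ifs with hz
    · obtain ⟨hj1, hj2⟩ := hej _ _ hz
      obtain ⟨j, hj⟩ : ∃ j, j = e z.2.1 - e z.1.1 := ⟨_, rfl⟩
      rw [← hj] at hj1 hj2 ⊢
      have hg := gs_pos hm hj1
      rw [abs_mul]
      have h1 : |(P : ℤ) / gs m j| ≤ P := by
        rw [abs_of_nonneg (Int.ediv_nonneg (Nat.cast_nonneg _) hg.le)]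
        exact Int.ediv_le_self _ (Nat.cast_nonneg _)
      have hk1 : ((z.2.2 : ℕ) : ℤ) ≤ K := by exact_mod_cast z.2.2.2.le
      have hk0 : (0 : ℤ) ≤ ((z.2.2 : ℕ) : ℤ) := Nat.cast_nonneg _
      have hi1 : ((z.1.2 : ℕ) : ℤ) ≤ K := by exact_mod_cast z.1.2.2.le
      have hi0 : (0 : ℤ) ≤ ((z.1.2 : ℕ) : ℤ) := Nat.cast_nonneg _
      have hd1 : (1 : ℤ) ≤ (m : ℤ) ^ j := by exact_mod_cast Nat.one_le_pow j _ hm
      have hd2 : (m : ℤ) ^ j ≤ (m : ℤ) ^ w := by exact_mod_cast Nat.pow_le_pow_right hm hj2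
      have hK0 : (0 : ℤ) ≤ K := Nat.cast_nonneg _
      have h2 : |((z.2.2 : ℕ) : ℤ) - (m : ℤ) ^ j * ((z.1.2 : ℕ) : ℤ)| ≤ K * (m : ℤ) ^ w := by
        rw [abs_le]
        constructor
        · nlinarith [mul_le_mul hd2 hi1 hi0 (by positivity)]
        · nlinarith [mul_nonneg (by linarith : (0 : ℤ) ≤ (m : ℤ) ^ j) hi0,
            mul_le_mul_of_nonneg_left (hd1.trans hd2) hK0]
      calc |(P : ℤ) / gs m j| * |((z.2.2 : ℕ) : ℤ) - (m : ℤ) ^ j * ((z.1.2 : ℕ) : ℤ)|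
          ≤ P * (K * (m : ℤ) ^ w) := mul_le_mul h1 h2 (abs_nonneg _) (Nat.cast_nonneg _)
        _ = _ := by push_cast; ring
    · rw [abs_zero]; exact Nat.cast_nonneg _
  obtain ⟨Bad, hBad⟩ : ∃ Bad : Finset ℤ, Bad = (Ioc (u : ℤ) (u + H)).filter (fun k : ℤ =>
    (g ^ k.toNat * f).Adm ∧ g ^ k.toNat * f ≠ 1 ∧
        AdE e (g ^ k.toNat * f).a (g ^ k.toNat * f).d ∧
        NoClq M e (g ^ k.toNat * f).a (g ^ k.toNat * f).d ((X : ℝ) ^ (1 - η))
          (X / ((200 * (B0 + 1) * A0 : ℕ) : ℝ)) X) := ⟨_, rfl⟩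
  rw [← hBad] at hcon
  obtain ⟨x, l, G, hl1, hln, hx⟩ := hcopy (fun k => (g ^ k.toNat * f).Adm) q u
    (fun k l hk hl hkl h => Af.per hfd1 hgd1 hfA hgA hg1 hfg hmq h2q k l
      (lt_of_le_of_lt (Nat.cast_nonneg _) hk) (lt_of_le_of_lt (Nat.cast_nonneg _) hl) hkl h) hq1 v
    (P * K * m ^ w) hvb H ((Nat.le_div_iff_mul_le (by omega)).2 (by
      calc n * (P * K * m ^ w) * q = q * (n * (P * K * m ^ w)) := by ring
        _ ≤ H := hsize1)) hsize2 Bad (by rw [hBad]; exact filter_subset _ _) (by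
      intro a ha
      rw [hBad] at ha
      exact (mem_filter.1 ha).2.1)
    (fun k => univ.filter (fun z : Fin T × Fin T => z.1 < z.2 ∧
      (X : ℝ) ^ (1 - η) ≤ (cnt (g ^ k.toNat * f).a (g ^ k.toNat * f).d (e z.2 - e z.1)
        (X / ((200 * (B0 + 1) * A0 : ℕ) : ℝ)) X : ℝ))) hcon
  -- the base point
  have hx0 := hx ((Classical.arbitrary _, Classical.arbitrary _),
    (Classical.arbitrary _, Classical.arbitrary _))
  have hv0 : v ((Classical.arbitrary (Fin T), Classical.arbitrary (Fin K)),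
      (Classical.arbitrary (Fin T), Classical.arbitrary (Fin K))) = 0 := by
    rw [hv]; simp
  rw [hv0, mul_zero, mul_zero, add_zero] at hx0
  obtain ⟨hxB, hxG⟩ := hx0
  obtain ⟨hxI, hxA, hx0, hxE, hxN⟩ := mem_filter.1 (by rw [hBad] at hxB; exact hxB)
  have hxI' := mem_Ioc.1 hxI
  have hxn : ((x.toNat : ℕ) : ℤ) = x := Int.toNat_of_nonneg (by omega)
  -- the exponents
  obtain ⟨s, hs⟩ : ∃ s : Fin T → Fin K → ℕ, s = fun (γ : Fin T) (i : Fin K) =>
    x.toNat * Af.sg m (e γ) + q * (l * (P * (i : ℕ))) := ⟨_, rfl⟩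
  have hsE : ∀ γ i, s γ i ≤ E := by
    intro γ i
    rw [hs, hE]
    have h1 : x.toNat ≤ u + H := by omega
    have h2 : x.toNat * Af.sg m (e γ) ≤ (u + H) * Af.sg m w := Nat.mul_le_mul h1
      (sg_mono m (hew γ))
    have h3 : q * (l * (P * (i : ℕ))) ≤ H := by
      refine le_trans ?_ hsize1
      refine Nat.mul_le_mul_left _ (Nat.mul_le_mul hln ?_)
      calc P * (i : ℕ) ≤ P * K * 1 := by
            rw [Nat.mul_one]; exact Nat.mul_le_mul_left _ i.2.le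
        _ ≤ P * K * m ^ w := Nat.mul_le_mul_left _ (Nat.one_le_pow _ _ hm)
    exact Nat.add_le_add h2 h3
  obtain ⟨F, hF⟩ : ∃ F : Fin T → Fin K → Af, F = fun γ i => g ^ s γ i * f ^ e γ := ⟨_, rfl⟩
  have hcross : ∀ (γ δ : Fin T) (i k : Fin K), γ < δ →
      F δ k = (g ^ (x + l * (q * v ((γ, i), (δ, k)))).toNat * f) ^ (e δ - e γ) * F γ i := by
    intro γ δ i k hγδ
    obtain ⟨hj1, hj2⟩ := hej γ δ hγδ
    obtain ⟨y, hy⟩ : ∃ y, y = x + l * (q * v ((γ, i), (δ, k))) := ⟨_, rfl⟩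
    have hyB := (hx ((γ, i), (δ, k))).1
    rw [← hy] at hyB ⊢
    rw [hBad] at hyB
    have hyI := mem_Ioc.1 (mem_filter.1 hyB).1
    have hyn : ((y.toNat : ℕ) : ℤ) = y := Int.toNat_of_nonneg (by omega)
    rw [hF]
    simp only
    rw [Af.cross hfg]
    obtain ⟨j, hj⟩ : ∃ j, j = e δ - e γ := ⟨_, rfl⟩
    have hjδ : e δ = j + e γ := by have := he hγδ; omega
    rw [← hj] at hj1 hj2 ⊢
    have h2 : (P : ℤ) = gs m j * ((P : ℤ) / gs m j) := by
      rw [hP]; exact (Int.mul_ediv_cancel' (pr_dvd m w hj1 hj2)).symm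
    have h3 : y = x + l * (q * ((P : ℤ) / gs m j * (((k : ℕ) : ℤ) - (m : ℤ) ^ j *
        ((i : ℕ) : ℤ)))) := by
      rw [hy, hv]
      simp only [if_pos hγδ]
      rw [hj]
    have h5 : ((s δ k : ℕ) : ℤ) = ((y.toNat * Af.sg m j + m ^ j * s γ i : ℕ) : ℤ) := by
      rw [hs]
      simp only
      rw [hjδ, sg_add]
      push_cast
      rw [hxn, hyn, h3, sg_gs, sg_gs]
      generalize (P : ℤ) / gs m j = R at h2 ⊢
      rw [h2]
      ring
    have h6 : s δ k = y.toNat * Af.sg m j + m ^ j * s γ i := by exact_mod_cast h5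
    rw [h6, hjδ]
  have hFd : ∀ γ i, (F γ i).d = (d' : ℤ) ^ s γ i * (d : ℤ) ^ e γ := by
    intro γ i
    rw [hF]
    show (g ^ s γ i * f ^ e γ).d = _
    rw [Af.mul_d, Af.pow_d, Af.pow_d, hgd, hfd]
  have hpowle : ∀ γ i, (1 : ℤ) ≤ (F γ i).d ∧ (F γ i).d ≤ A0 := by
    intro γ i
    rw [hFd, hA0]
    constructor
    · exact_mod_cast Nat.mul_pos (Nat.one_le_pow _ _ hd') (Nat.one_le_pow _ _ hd)
    · exact_mod_cast Nat.mul_le_mul (Nat.pow_le_pow_right hd' (hsE γ i))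
        (Nat.pow_le_pow_right hd (hew γ))
  have hbb : ∀ γ i, 100 * |(F γ i).a| ≤ N := by
    intro γ i
    have h1 : |(F γ i).a| ≤ (|f.a| + |g.a|) * B0 := by
      have h2 : (F γ i).a = itc g.a g.d (s γ i) + g.d ^ s γ i * itc f.a f.d (e γ) := by
        rw [hF]
        show (g ^ s γ i * f ^ e γ).a = _
        rw [Af.mul_a, Af.pow_a, Af.pow_a, Af.pow_d]
      rw [h2, itc_eq, itc_eq, hgd, hfd]
      have h3 : |g.a * gs d' (s γ i)| ≤ |g.a| * gs d' E := by
        rw [abs_mul, abs_of_nonneg (gs_nonneg _ _)]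
        exact mul_le_mul_of_nonneg_left (gs_mono (hsE γ i)) (abs_nonneg _)
      have h4 : |(d' : ℤ) ^ s γ i * (f.a * gs d (e γ))| ≤ (d' : ℤ) ^ E * (|f.a| * gs d w) := by
        rw [abs_mul, abs_mul, abs_of_nonneg (gs_nonneg _ _), abs_of_nonneg (by positivity)]
        refine mul_le_mul ?_ (mul_le_mul_of_nonneg_left (gs_mono (hew γ)) (abs_nonneg _))
          (mul_nonneg (abs_nonneg _) (gs_nonneg _ _)) (by positivity)
        exact_mod_cast Nat.pow_le_pow_right hd' (hsE γ i)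
      have h5 : (B0 : ℤ) = gs d' E + (d' : ℤ) ^ E * gs d w := by
        rw [hB0, gs_nat, gs_nat]; push_cast; rfl
      have h6 : (0 : ℤ) ≤ |f.a| * gs d' E := mul_nonneg (abs_nonneg _) (gs_nonneg _ _)
      have h7 : (0 : ℤ) ≤ |g.a| * ((d' : ℤ) ^ E * gs d w) :=
        mul_nonneg (abs_nonneg _) (mul_nonneg (by positivity) (gs_nonneg _ _))
      rw [h5]
      calc |g.a * gs d' (s γ i) + (d' : ℤ) ^ s γ i * (f.a * gs d (e γ))| ≤ _ + _ :=
            abs_add_le _ _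
        _ ≤ |g.a| * gs d' E + (d' : ℤ) ^ E * (|f.a| * gs d w) := add_le_add h3 h4
        _ ≤ _ := by nlinarith
    have h2 : (100 * ((|f.a| + |g.a|) * B0)) * (A0 : ℤ) ≤ X := by
      push_cast at hCf hCg
      have h3 : (0 : ℤ) ≤ |f.a| * (A0 : ℤ) := by positivity
      have h4 : (0 : ℤ) ≤ |g.a| * (A0 : ℤ) := by positivity
      nlinarith
    have h4 : (100 * ((|f.a| + |g.a|) * B0)) ≤ (N : ℤ) := by
      have h5 : (N : ℤ) = (X : ℤ) / (A0 : ℤ) := by rw [hNdef]; push_cast; rfl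
      rw [h5]
      exact (Int.le_ediv_iff_mul_le (by exact_mod_cast hA01)).2 h2
    linarith
  have hN0 : (0 : ℝ) < N := by exact_mod_cast hN1
  have hbr : ∀ γ i, |((F γ i).a : ℝ)| ≤ N / 100 := by
    intro γ i
    have h1 : (100 : ℝ) * |((F γ i).a : ℝ)| ≤ N := by
      have h2 := hbb γ i
      have h3 : ((100 * |(F γ i).a| : ℤ) : ℝ) ≤ N := by exact_mod_cast h2
      rw [Int.cast_mul, Int.cast_abs] at h3
      exact_mod_cast h3
    linarith
  have hvalue : ∀ γ i, ∀ y : ℝ, (N : ℝ) / 16 ≤ y →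
      (N : ℝ) / 30 ≤ ((F γ i).d : ℝ) * y + ((F γ i).a : ℝ) := by
    intro γ i y hy
    have h1 := abs_le.1 (hbr γ i)
    have h2 : (1 : ℝ) ≤ ((F γ i).d : ℝ) := by exact_mod_cast (hpowle γ i).1
    have h3 : y ≤ ((F γ i).d : ℝ) * y := le_mul_of_one_le_left (by
      have : (0 : ℝ) ≤ (N : ℝ) / 16 := by positivity
      linarith) h2
    linarith [h1.1]
  obtain ⟨S, σ, hS, hcard⟩ := hN (fun γ i => (F γ i).d) (fun γ i => (F γ i).a)
    (fun γ i => by have := (hpowle γ i).1; omega)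
    (fun γ i => by
      rw [abs_of_nonneg (by have := (hpowle γ i).1; omega)]
      exact (hpowle γ i).2)
    (fun γ i => by
      have h1 := hbb γ i
      have h2 : (0 : ℤ) ≤ |(F γ i).a| := abs_nonneg _
      have h3 : (0 : ℤ) ≤ N := Nat.cast_nonneg _
      linarith)
    (fun γ i y hy _ => hvalue γ i y hy)
    (by
      -- injectivity
      have hlt : ∀ (γ δ : Fin T) (i k : Fin K), γ < δ → F γ i ≠ F δ k := by
        intro γ δ i k hγδ heq
        have h3 := hcross γ δ i k hγδ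
        obtain ⟨hj1, hj2⟩ := hej γ δ hγδ
        have hyB := (hx ((γ, i), (δ, k))).1
        rw [hBad] at hyB
        have hne := (mem_filter.1 hyB).2.2.1
        have hyd : 1 ≤ (g ^ (x + l * (q * v ((γ, i), (δ, k)))).toNat * f).d := by
          rw [Af.mul_d, Af.pow_d, hgd, hfd]
          exact_mod_cast Nat.mul_pos (Nat.one_le_pow _ _ hd') hd
        rw [← heq] at h3
        generalize g ^ (x + l * (q * v ((γ, i), (δ, k)))).toNat * f = y at h3 hne hyd
        obtain ⟨j, hj⟩ : ∃ j, j = e δ - e γ := ⟨_, rfl⟩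
        rw [← hj] at hj1 hj2 h3
        have hD := congrArg Af.d h3
        have hA := congrArg Af.a h3
        rw [Af.mul_d, Af.pow_d] at hD
        rw [Af.mul_a, Af.pow_a, Af.pow_d] at hA
        have hF1 := (hpowle γ i).1
        have h4 : y.d ^ j = 1 := by
          have h5 : (y.d ^ j - 1) * (F γ i).d = 0 := by linear_combination -hD
          rcases mul_eq_zero.1 h5 with h8 | h8
          · linarith
          · omega
        rw [h4, one_mul] at hA
        have h9 : itc y.a y.d j = 0 := by linarith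
        have h10 : y.d = 1 := by
          have h11 : IsUnit y.d := IsUnit.of_pow_eq_one h4 (by omega)
          rcases Int.isUnit_iff.1 h11 with h12 | h12
          · exact h12
          · omega
        rw [h10, Af.itc_one] at h9
        rcases mul_eq_zero.1 h9 with h11 | h11
        · have : j = 0 := by exact_mod_cast h11
          omega
        · exact hne (Af.ext h11 h10)
      rintro ⟨γ, i⟩ ⟨δ, k⟩ heq
      simp only at heq
      have heq' : F γ i = F δ k := by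
        obtain ⟨h1, h2⟩ := Prod.ext_iff.1 heq
        exact Af.ext h2 h1
      rcases lt_trichotomy γ δ with hγδ | hγδ | hγδ
      · exact absurd heq' (hlt γ δ i k hγδ)
      · subst hγδ
        have h1 := congrArg Af.d heq'
        have h2 := congrArg Af.a heq'
        rw [hFd, hFd] at h1
        have h3 : (d' : ℤ) ^ s γ i = (d' : ℤ) ^ s γ k := mul_right_cancel₀ (by positivity) h1
        rw [hF] at h2
        simp only [Af.mul_a, Af.pow_a, Af.pow_d, hgd] at h2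
        rw [h3] at h2
        have h4 : itc g.a d' (s γ i) = itc g.a d' (s γ k) := add_right_cancel h2
        have h5 : s γ i = s γ k := itc_inj (by exact_mod_cast hd') (Af.a_ne hgA hg1 hgd1) h3 h4
        rw [hs] at h5
        simp only at h5
        have h6 := Nat.add_left_cancel h5
        have h7 := Nat.eq_of_mul_eq_mul_left hP1 (Nat.eq_of_mul_eq_mul_left (by omega)
          (Nat.eq_of_mul_eq_mul_left (by omega) h6))
        rw [Fin.ext h7]
      · exact absurd heq'.symm (hlt δ γ k i hγδ))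
    (by
      intro p hp
      obtain ⟨y, hy⟩ := Af.arr (ι := Fin T × Fin K) hfd1 hgd1 hfA hgA hg1 hfg hmq (by
        intro p hp hpc
        rw [Fintype.card_prod, Fintype.card_fin, Fintype.card_fin] at hpc
        rw [hq]
        exact Dvd.dvd.mul_left (Nat.dvd_factorial hp.pos (by omega)) _) (fun z => e z.1) x.toNat
        (fun z => l * (P * ((z.2 : Fin K) : ℕ))) (by
        intro p hp
        obtain ⟨y, hy⟩ := hxE p hp
        refine ⟨y, fun z hz => hy z.1 ?_⟩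
        unfold Af.ev at hz
        rw [Af.pow_a, Af.pow_d, add_comm] at hz
        exact hz) hp
      refine ⟨y, fun γ i hi => hy (γ, i) ?_⟩
      rw [hF, hs] at hi
      unfold Af.ev
      rw [add_comm]
      exact hi)
  -- the clique
  apply hxN
  refine ⟨S, hS, fun γ hγ δ hδ hγδ => ?_⟩
  have hz := (hx ((γ, σ γ), (δ, σ δ))).2
  have hmem : (γ, δ) ∈ G := by
    rw [← hz]
    refine mem_filter.2 ⟨mem_univ _, hγδ, ?_⟩
    refine hsc.2.trans (hcard.trans ?_)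
    rw [Nat.cast_le]
    simp only
    have hcr := hcross γ δ (σ γ) (σ δ) hγδ
    generalize g ^ (x + l * (q * v ((γ, σ γ), (δ, σ δ)))).toNat * f = y at hcr ⊢
    obtain ⟨j, hj⟩ : ∃ j, j = e δ - e γ := ⟨_, rfl⟩
    rw [← hj] at hcr ⊢
    refine cnt_geZ _ y.a y.d j (F γ (σ γ)).d (F γ (σ γ)).a
      (by have := (hpowle γ (σ γ)).1; omega) _ _ ?_
    intro r hr
    obtain ⟨hrI, hr1, hr2, hr3⟩ := mem_filter.1 hr
    have hrv := hvalue γ (σ γ) r (by linarith)
    have h6 : (((F γ (σ γ)).d * (r : ℤ) + (F γ (σ γ)).a : ℤ) : ℝ) =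
        ((F γ (σ γ)).d : ℝ) * r + ((F γ (σ γ)).a : ℝ) := by push_cast; ring
    refine ⟨hr3 γ hγ, ?_, ?_, ?_⟩
    · have h7 : y.d ^ j * ((F γ (σ γ)).d * (r : ℤ) + (F γ (σ γ)).a) + itc y.a y.d j =
          (F δ (σ δ)).d * (r : ℤ) + (F δ (σ δ)).a := by
        rw [hcr, Af.mul_a, Af.mul_d, Af.pow_a, Af.pow_d]
        ring
      rw [h7]
      exact hr3 δ hδ
    · rw [h6]
      refine le_trans ?_ hrv
      have h7 : (X : ℝ) ≤ N * (2 * (A0 : ℝ)) := (div_le_iff₀ (by positivity)).1 hsc.1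
      have h8 : (0 : ℝ) < ((200 * (B0 + 1) * A0 : ℕ) : ℝ) := by positivity
      rw [div_le_iff₀ h8]
      have h9 : (0 : ℝ) ≤ (N : ℝ) * (A0 : ℝ) := by positivity
      have h10 : (0 : ℝ) ≤ (B0 : ℝ) * ((N : ℝ) * (A0 : ℝ)) := by positivity
      push_cast
      nlinarith
    · rw [h6]
      have h7 : ((F γ (σ γ)).d : ℝ) ≤ (A0 : ℝ) := by exact_mod_cast (hpowle γ (σ γ)).2
      have h8 : (N : ℝ) * (A0 : ℝ) ≤ X := by
        have := Nat.div_mul_le_self X A0
        rw [← hNdef] at this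
        exact_mod_cast this
      have h9 := abs_le.1 (hbr γ (σ γ))
      have h10 : (1 : ℝ) ≤ (A0 : ℝ) := by exact_mod_cast hA01
      have h11 : ((F γ (σ γ)).d : ℝ) * r ≤ (A0 : ℝ) * (1 / 4 * N) :=
        mul_le_mul h7 hr2 (Nat.cast_nonneg _) (by positivity)
      have h12 : (N : ℝ) ≤ N * (A0 : ℝ) := le_mul_of_one_le_right hN0.le h10
      linarith [h9.2]
  rw [← hxG] at hmem
  exact (mem_filter.1 hmem).2.2

end Pool.Agent.Y863.AU
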