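import Mathlib
import Pool.Agent.Y863.AA.FinB
import Pool.Agent.Y863.AU.CoreU

/-!
# Almost all members of the sequence of maps `g ^ k * f`, `f * g = g ^ m * f`
-/

set_option autoImplicit false
set_option maxHeartbeats 400000

namespace Pool.Agent.Y863.AU

open Finset Filter Topology Pool.Agent.W25.IT Pool.Agent.Y863.AA Pool.Agent.H732R3.BigQ

theorem not_goodZ {a d : ℤ} {j : ℕ} (hd : 0 < d)
    (h : ¬ GoodPair (itc a d j) (d ^ j)) (C : ℕ) :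
    ∀ᶠ η in 𝓝[>] (0 : ℝ), ∀ᶠ X : ℕ in atTop, (cnt a d j (X / C) X : ℝ) < (X : ℝ) ^ (1 - η) := by
  have hnb : ¬ Big {q : ℕ | q.Prime ∧ ∃ p : ℕ, p.Prime ∧ itc a d j + q * d ^ j = p} :=
    fun hb => h (goodPair_of_big (by positivity) hb)
  unfold Big at hnb
  push Not at hnb
  obtain ⟨η, hη, hnb⟩ := hnb
  filter_upwards [Ioc_mem_nhdsGT hη] with η' hη'
  filter_upwards [tendsto_natCast_atTop_atTop.eventually hnb, eventually_ge_atTop 1] with X hX hX1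
  have hX1' : (1 : ℝ) ≤ X := by exact_mod_cast hX1
  calc (cnt a d j (X / C) X : ℝ) ≤ ({n : ℕ | n ∈ {q : ℕ | q.Prime ∧ ∃ p : ℕ, p.Prime ∧
        itc a d j + q * d ^ j = p} ∧ (n : ℝ) ≤ X}.ncard : ℝ) := by
        rw [Nat.cast_le]
        refine Set.ncard_le_ncard ?_ (fin_le _ _)
        intro q hq
        exact ⟨hq.1, hq.2.2⟩
    _ < (X : ℝ) ^ (1 - η) := hX
    _ ≤ (X : ℝ) ^ (1 - η') := Real.rpow_le_rpow_of_exponent_le hX1' (by linarith [hη'.2])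

open Classical in
theorem passZ {ι : Type*} (I : Finset ι) (T M : ℕ) (a d : ι → ℤ) (e : Fin T → ℕ)
    (hd : ∀ s, 0 < d s) (P : ι → Prop) (C : ℕ) (B : ℝ)
    (h : ∀ η : ℝ, 0 < η → η ≤ 1 → ∀ᶠ X : ℕ in atTop, ((I.filter (fun s => P s ∧
      NoClq M e (a s) (d s) ((X : ℝ) ^ (1 - η)) (X / C) X)).card : ℝ) ≤ B) :
    ((I.filter (fun s => P s ∧ NoGood M e (a s) (d s))).card : ℝ) ≤ B := by
  have h1 : ∀ᶠ η in 𝓝[>] (0 : ℝ), ∀ s ∈ I, ∀ z : Fin T × Fin T,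
      ¬ GoodPair (itc (a s) (d s) (e z.2 - e z.1)) (d s ^ (e z.2 - e z.1)) →
      ∀ᶠ X : ℕ in atTop, (cnt (a s) (d s) (e z.2 - e z.1) (X / C) X : ℝ) < (X : ℝ) ^ (1 - η) := by
    rw [Filter.eventually_all_finset]
    intro s _
    rw [Filter.eventually_all]
    intro z
    by_cases hg : GoodPair (itc (a s) (d s) (e z.2 - e z.1)) (d s ^ (e z.2 - e z.1))
    · exact Eventually.of_forall fun η hn => absurd hg hn
    · filter_upwards [not_goodZ (hd s) hg C] with η hη _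
      exact hη
  obtain ⟨η, h2, hη0, hη1⟩ := (h1.and (Ioc_mem_nhdsGT (zero_lt_one' ℝ))).exists
  have h3 : ∀ᶠ X : ℕ in atTop, ∀ s ∈ I, ∀ z : Fin T × Fin T,
      ¬ GoodPair (itc (a s) (d s) (e z.2 - e z.1)) (d s ^ (e z.2 - e z.1)) →
      (cnt (a s) (d s) (e z.2 - e z.1) (X / C) X : ℝ) < (X : ℝ) ^ (1 - η) := by
    rw [Filter.eventually_all_finset]
    intro s hs
    rw [Filter.eventually_all]
    intro z
    by_cases hg : GoodPair (itc (a s) (d s) (e z.2 - e z.1)) (d s ^ (e z.2 - e z.1))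
    · exact Eventually.of_forall fun η hn => absurd hg hn
    · filter_upwards [h2 s hs z hg] with X hX _
      exact hX
  obtain ⟨X, hX1, hX2⟩ := (h3.and (h η hη0 hη1)).exists
  refine le_trans ?_ hX2
  rw [Nat.cast_le]
  apply card_le_card
  intro s hs
  obtain ⟨hsI, hsP, hsN⟩ := mem_filter.1 hs
  refine mem_filter.2 ⟨hsI, hsP, ?_⟩
  rintro ⟨S, hS, hcl⟩
  refine hsN ⟨S, hS, fun g hg k hk hgk => ?_⟩
  by_contra hng
  have h4 := hX1 s hsI (g, k) hng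
  have h5 := hcl g hg k hk hgk
  exact absurd h5 (not_le.2 h4)

theorem card_nat_le (u H : ℕ) (P : ℕ → Prop) (Q : ℤ → Prop) (i1 : DecidablePred P)
    (i2 : DecidablePred Q) (h : ∀ k : ℕ, P k → Q k) :
    (@Finset.filter ℕ P i1 (Ioc u (u + H))).card ≤
      (@Finset.filter ℤ Q i2 (Ioc (u : ℤ) (u + H))).card := by
  refine card_le_card_of_injOn (fun k : ℕ => (k : ℤ)) ?_ Nat.cast_injective.injOn
  intro k hk
  obtain ⟨h1, h2⟩ := mem_filter.1 (mem_coe.1 hk)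
  rw [mem_Ioc] at h1
  refine mem_coe.2 (mem_filter.2 ⟨?_, h k h2⟩)
  rw [mem_Ioc]
  constructor <;> push_cast <;> omega

theorem card_int_le (u H : ℕ) (P : ℕ → Prop) (Q : ℤ → Prop) (i1 : DecidablePred P)
    (i2 : DecidablePred Q) (h : ∀ k : ℤ, Q k → P k.toNat) :
    (@Finset.filter ℤ Q i2 (Ioc (u : ℤ) (u + H))).card ≤
      (@Finset.filter ℕ P i1 (Ioc u (u + H))).card := by
  refine card_le_card_of_injOn Int.toNat ?_ ?_
  · intro k hk
    obtain ⟨h1, h2⟩ := mem_filter.1 (mem_coe.1 hk)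
    rw [mem_Ioc] at h1
    refine mem_coe.2 (mem_filter.2 ⟨?_, h k h2⟩)
    rw [mem_Ioc]
    constructor <;> omega
  · intro k hk l hl hkl
    have h1 := (mem_filter.1 (mem_coe.1 hk)).1
    have h2 := (mem_filter.1 (mem_coe.1 hl)).1
    rw [mem_Ioc] at h1 h2
    omega

theorem adE0_one {a d : ℤ} (h : Ad a d) (h3 : ¬ (3 ∣ d - 1 ∧ ¬ 3 ∣ a)) : AdE E0 a d :=
  adE_one (adE0_mul h 1 (by simpa using h3))

theorem adE1_one {a d : ℤ} (h : Ad a d) : AdE E1 a d := adE_one (adE1_mul h 1)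

open Classical in
/-- **Almost all members of the sequence `g ^ k * f`.** -/
theorem mainU : ∀ ε : ℝ, 0 < ε → ∃ L : ℕ, ∀ m d d' : ℕ, 1 ≤ m → 1 ≤ d → 1 ≤ d' →
    ∀ u H : ℕ, L * m ^ 25 ≤ H →
    (∃ C : ℕ, 1 ≤ C ∧ ∀ η : ℝ, 0 < η → η ≤ 1 → ∀ᶠ X : ℕ in atTop, ∀ f g : Af, f.d = d → g.d = d' →
      f.Adm → g.Adm → g ≠ 1 → f * g = g ^ m * f → (C : ℤ) * |f.a| ≤ X → (C : ℤ) * |g.a| ≤ X →
      (((Ioc u (u + H)).filter (fun k : ℕ => (g ^ k * f).Adm ∧ g ^ k * f ≠ 1 ∧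
        ∀ j : ℕ, 1 ≤ j → j ≤ Rn (g ^ k * f).a (g ^ k * f).d →
          (cnt (g ^ k * f).a (g ^ k * f).d j (X / C) X : ℝ) < (X : ℝ) ^ (1 - η))).card : ℝ) ≤
      ε * (((Ioc u (u + H)).filter (fun k : ℕ => (g ^ k * f).Adm)).card : ℝ)) ∧
    ∀ f g : Af, f.d = d → g.d = d' → f.Adm → g.Adm → g ≠ 1 → f * g = g ^ m * f →
      (((Ioc u (u + H)).filter (fun k : ℕ => (g ^ k * f).Adm ∧ g ^ k * f ≠ 1 ∧
        ∀ j : ℕ, 1 ≤ j → j ≤ Rn (g ^ k * f).a (g ^ k * f).d →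
          ¬ GoodPair (itc (g ^ k * f).a (g ^ k * f).d j) ((g ^ k * f).d ^ j))).card : ℝ) ≤
      ε * (((Ioc u (u + H)).filter (fun k : ℕ => (g ^ k * f).Adm)).card : ℝ) := by
  obtain ⟨c, hc, -, hcore⟩ := coreU
  intro ε hε
  obtain ⟨L0, h0⟩ := hcore 4 1 (four_lt hc) 4 E0 E0_mono E0_le (ε / 2) (by positivity)
  obtain ⟨L1, h1⟩ := hcore 4 1 (four_lt hc) 4 E1 E1_mono E1_le (ε / 2) (by positivity)
  refine ⟨L0 + L1, fun m d d' hm hd hd' u H hH => ?_⟩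
  have e25 : (4 + 1) ^ 2 = 25 := by norm_num
  rw [e25] at h0 h1
  have hLH0 : L0 * m ^ 25 ≤ H := le_trans (Nat.mul_le_mul_right _ (by omega)) hH
  have hLH1 : L1 * m ^ 25 ≤ H := le_trans (Nat.mul_le_mul_right _ (by omega)) hH
  obtain ⟨C0, hC0, h0⟩ := h0 m d d' hm hd hd' u H hLH0
  obtain ⟨C1, hC1, h1⟩ := h1 m d d' hm hd hd' u H hLH1
  have e1 : ∀ B : ℝ, ε * B = ε / 2 * B + ε / 2 * B := fun B => by ring
  have hcmp : ∀ f g : Af, (((Ioc (u : ℤ) (u + H)).filter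
      (fun k : ℤ => (g ^ k.toNat * f).Adm)).card : ℝ) ≤
      (((Ioc u (u + H)).filter (fun k : ℕ => (g ^ k * f).Adm)).card : ℝ) := by
    intro f g
    rw [Nat.cast_le]
    exact card_int_le u H _ _ _ _ (fun k hk => hk)
  refine ⟨⟨C0 * C1, Nat.mul_pos hC0 hC1, fun η hη hη1 => ?_⟩, fun f g hfd hgd hfA hgA hg1 hfg => ?_⟩
  · filter_upwards [h0 η hη hη1, h1 η hη hη1] with X hX0 hX1 f g hfd hgd hfA hgA hg1 hfg hCf hCg
    have c0 : (C0 : ℤ) ≤ ((C0 * C1 : ℕ) : ℤ) := by exact_mod_cast Nat.le_mul_of_pos_right _ hC1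
    have c1 : (C1 : ℤ) ≤ ((C0 * C1 : ℕ) : ℤ) := by exact_mod_cast Nat.le_mul_of_pos_left _ hC0
    have hX0 := (hX0 f g hfd hgd hfA hgA hg1 hfg
      ((mul_le_mul_of_nonneg_right c0 (abs_nonneg _)).trans hCf)
      ((mul_le_mul_of_nonneg_right c0 (abs_nonneg _)).trans hCg)).trans
      (mul_le_mul_of_nonneg_left (hcmp f g) (by positivity))
    have hX1 := (hX1 f g hfd hgd hfA hgA hg1 hfg
      ((mul_le_mul_of_nonneg_right c1 (abs_nonneg _)).trans hCf)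
      ((mul_le_mul_of_nonneg_right c1 (abs_nonneg _)).trans hCg)).trans
      (mul_le_mul_of_nonneg_left (hcmp f g) (by positivity))
    rw [e1]
    refine card_map2 _ _ _ _ _ ?_ hX0 hX1
    intro k hk
    obtain ⟨hkI, hkA, hk1, hR⟩ := mem_filter.1 hk
    have hkI' : (k : ℤ) ∈ Ioc (u : ℤ) (u + H) := by
      have := mem_Ioc.1 hkI
      rw [mem_Ioc]
      constructor <;> omega
    simp only [mem_filter, Int.toNat_natCast]
    by_cases h3 : (3 : ℤ) ∣ (g ^ k * f).d - 1 ∧ ¬ (3 : ℤ) ∣ (g ^ k * f).a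
    · right
      rw [Rn, if_pos h3] at hR
      refine ⟨hkI', hkA, hk1, adE1_one hkA, noclq_of E1 _ _ 4 _ _ _ _ ?_ E1_diff hR⟩
      rw [Nat.mul_comm]
      exact mul_div_cast hC0 X
    · left
      rw [Rn, if_neg h3] at hR
      exact ⟨hkI', hkA, hk1, adE0_one hkA h3,
        noclq_of E0 _ _ 3 _ _ _ _ (mul_div_cast hC1 X) E0_diff hR⟩
  · have hd0 : ∀ k : ℤ, 0 < (g ^ k.toNat * f).d := by
      intro k
      rw [Af.mul_d, Af.pow_d, hgd, hfd]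
      have := Nat.mul_pos (Nat.one_le_pow k.toNat _ hd') hd
      exact_mod_cast this
    have p0 := passZ (Ioc (u : ℤ) (u + H)) 4 1 (fun k : ℤ => (g ^ k.toNat * f).a)
      (fun k : ℤ => (g ^ k.toNat * f).d) E0 hd0
      (fun k => (g ^ k.toNat * f).Adm ∧ g ^ k.toNat * f ≠ 1 ∧
        AdE E0 (g ^ k.toNat * f).a (g ^ k.toNat * f).d) C0
      (ε / 2 * (((Ioc u (u + H)).filter (fun k : ℕ => (g ^ k * f).Adm)).card : ℝ)) (by
        intro η hη hη1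
        filter_upwards [h0 η hη hη1, eventually_ge_atTop (C0 * |f.a|).toNat,
          eventually_ge_atTop (C0 * |g.a|).toNat] with X hX hX2 hX3
        refine le_trans (le_of_eq ?_) ((hX f g hfd hgd hfA hgA hg1 hfg (by omega) (by omega)).trans
          (mul_le_mul_of_nonneg_left (hcmp f g) (by positivity)))
        congr 2
        ext a
        simp only [mem_filter, and_assoc])
    have p1 := passZ (Ioc (u : ℤ) (u + H)) 4 1 (fun k : ℤ => (g ^ k.toNat * f).a)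
      (fun k : ℤ => (g ^ k.toNat * f).d) E1 hd0
      (fun k => (g ^ k.toNat * f).Adm ∧ g ^ k.toNat * f ≠ 1 ∧
        AdE E1 (g ^ k.toNat * f).a (g ^ k.toNat * f).d) C1
      (ε / 2 * (((Ioc u (u + H)).filter (fun k : ℕ => (g ^ k * f).Adm)).card : ℝ)) (by
        intro η hη hη1
        filter_upwards [h1 η hη hη1, eventually_ge_atTop (C1 * |f.a|).toNat,
          eventually_ge_atTop (C1 * |g.a|).toNat] with X hX hX2 hX3
        refine le_trans (le_of_eq ?_) ((hX f g hfd hgd hfA hgA hg1 hfg (by omega) (by omega)).trans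
          (mul_le_mul_of_nonneg_left (hcmp f g) (by positivity)))
        congr 2
        ext a
        simp only [mem_filter, and_assoc])
    rw [e1]
    refine card_map2 _ _ _ _ _ ?_ p0 p1
    intro k hk
    obtain ⟨hkI, hkA, hk1, hR⟩ := mem_filter.1 hk
    have hkI' : (k : ℤ) ∈ Ioc (u : ℤ) (u + H) := by
      have := mem_Ioc.1 hkI
      rw [mem_Ioc]
      constructor <;> omega
    simp only [mem_filter, Int.toNat_natCast]
    by_cases h3 : (3 : ℤ) ∣ (g ^ k * f).d - 1 ∧ ¬ (3 : ℤ) ∣ (g ^ k * f).a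
    · right
      rw [Rn, if_pos h3] at hR
      exact ⟨hkI', ⟨hkA, hk1, adE1_one hkA⟩, nogood_of E1 _ _ 4 E1_diff hR⟩
    · left
      rw [Rn, if_neg h3] at hR
      exact ⟨hkI', ⟨hkA, hk1, adE0_one hkA h3⟩, nogood_of E0 _ _ 3 E0_diff hR⟩

end Pool.Agent.Y863.AU
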